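import Pool.Agent.Lib.MP_95d09c_al.ArMain

set_option autoImplicit false

open CategoryTheory

namespace Pool.Agent.Results.MP_95d09c_al.ArtinReesChi

/-- The Jacobson radical `J` of `R` has the Artin-Rees property for left ideals: for every left
ideal `L` there is `b` with `L ∩ J ^ b ⊆ J L`. -/
def ArtinRees (R : Type) [Ring R] : Prop :=
  ∀ L : Ideal R, ∃ b : ℕ, L ⊓ Ring.jacobson R ^ b ≤ Ring.jacobson R * L

/-- `R` is separated and complete for the filtration by the powers of its Jacobson radical. -/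
def RadComplete (R : Type) [Ring R] : Prop :=
  (∀ x : R, (∀ j : ℕ, x ∈ Ring.jacobson R ^ j) → x = 0) ∧
    ∀ f : ℕ → R, (∀ j : ℕ, f (j + 1) - f j ∈ Ring.jacobson R ^ j) →
      ∃ x : R, ∀ j : ℕ, x - f j ∈ Ring.jacobson R ^ j

/-- The left module `k = R / J`. -/
abbrev Res (R : Type) [Ring R] : ModuleCat.{0} R := ModuleCat.of R (R ⧸ Ring.jacobson R)

/-- The group `Ext^i_R(k, R)` of left modules is finitely generated for the action of the
endomorphisms of `k`. -/
def ExtFinite (R : Type) [Ring R] (i : ℕ) : Prop :=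
  ∃ (m : ℕ) (s : Fin m → Abelian.Ext.{0} (Res R) (ModuleCat.of R R) i),
    ∀ x : Abelian.Ext.{0} (Res R) (ModuleCat.of R R) i, ∃ f : Fin m → (Res R ⟶ Res R),
      x = ∑ j, (Abelian.Ext.mk₀ (f j)).comp (s j) (zero_add i)

/-- Let `R` be a (possibly noncommutative) local ring, left and right noetherian, of finite left
and right global dimension. Suppose that its radical has the left and the right Artin-Rees
property, or that `R` is complete, and that all groups `Ext^i_R(k, R)` are finite dimensional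
over the residue division ring. Then `R` is a domain. -/
theorem result :
    ∀ (R : Type) [Ring R],
      IsLocalRing R → IsNoetherianRing R → IsNoetherianRing Rᵐᵒᵖ →
      (∃ n : ℕ, ∀ M : ModuleCat.{0} R, ∃ (P : ℕ → ModuleCat.{0} R)
          (d : ∀ i : ℕ, P (i + 1) ⟶ P i) (ε : P 0 ⟶ M),
          (∀ i, Module.Projective R (P i)) ∧ Function.Surjective ε.hom ∧
          LinearMap.range (d 0).hom = LinearMap.ker ε.hom ∧
          (∀ i, LinearMap.range (d (i + 1)).hom = LinearMap.ker (d i).hom) ∧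
          (∀ i, n < i → Subsingleton (P i))) →
      (∃ n : ℕ, ∀ M : ModuleCat.{0} Rᵐᵒᵖ, ∃ (P : ℕ → ModuleCat.{0} Rᵐᵒᵖ)
          (d : ∀ i : ℕ, P (i + 1) ⟶ P i) (ε : P 0 ⟶ M),
          (∀ i, Module.Projective Rᵐᵒᵖ (P i)) ∧ Function.Surjective ε.hom ∧
          LinearMap.range (d 0).hom = LinearMap.ker ε.hom ∧
          (∀ i, LinearMap.range (d (i + 1)).hom = LinearMap.ker (d i).hom) ∧
          (∀ i, n < i → Subsingleton (P i))) →
      (ArtinRees R ∧ ArtinRees Rᵐᵒᵖ) ∨ RadComplete R → (∀ i, ExtFinite R i) → IsDomain R := by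
  intro R _ _ _ _ hL hR hc hχ
  have h : Pool.Agent.Lib.MP_95d09c_al.ARl R ∧ Pool.Agent.Lib.MP_95d09c_al.ARl Rᵐᵒᵖ := by
    rcases hc with hc | hc
    · have := Pool.Agent.Lib.MP_95d09c_al.op_local (Λ := R)
      exact ⟨Pool.Agent.Lib.MP_95d09c_al.ar_of_jac hc.1, Pool.Agent.Lib.MP_95d09c_al.ar_of_jac hc.2⟩
    · exact Pool.Agent.Lib.MP_95d09c_al.ar_both
        (fun x hx => hc.1 x fun j => Pool.Agent.Lib.MP_95d09c_al.jac_pow (A := R) j ▸ hx j)
        (fun f hf => (hc.2 f fun j => Pool.Agent.Lib.MP_95d09c_al.jac_pow (A := R) j ▸ hf j).imp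
          fun x hx j => Pool.Agent.Lib.MP_95d09c_al.jac_pow (A := R) j ▸ hx j)
  have : NoZeroDivisors R := ⟨fun hab =>
    Pool.Agent.Lib.MP_95d09c_al.eq_zero_or_eq_zero_of_ar
      (Pool.Agent.Lib.MP_95d09c_al.gdf_of_res hL) (Pool.Agent.Lib.MP_95d09c_al.gdf_of_res hR)
      h.1 h.2 (fun i => (hχ i).imp fun m hm => hm.imp fun s hs x => (hs x).elim fun f hf =>
        ⟨fun j => (f j).hom, hf⟩) hab⟩
  exact NoZeroDivisors.to_isDomain R

end Pool.Agent.Results.MP_95d09c_al.ArtinReesChi
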