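import Pool.Agent.Lib.MP_95d09c_al.Main

set_option autoImplicit false

open CategoryTheory

namespace Pool.Agent.Results.MP_95d09c_al.GlobalDimensionFour

/-- Every (possibly noncommutative) local ring that is left and right noetherian, and in which
every left and every right module has a projective resolution of length at most four, is a
domain. -/
theorem result :
    ∀ (R : Type) [Ring R], IsLocalRing R → IsNoetherianRing R → IsNoetherianRing Rᵐᵒᵖ →
      (∀ M : ModuleCat.{0} R, ∃ (P : ℕ → ModuleCat.{0} R)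
          (d : ∀ i : ℕ, P (i + 1) ⟶ P i) (ε : P 0 ⟶ M),
          (∀ i, Module.Projective R (P i)) ∧ Function.Surjective ε.hom ∧
          LinearMap.range (d 0).hom = LinearMap.ker ε.hom ∧
          (∀ i, LinearMap.range (d (i + 1)).hom = LinearMap.ker (d i).hom) ∧
          (∀ i, 4 < i → Subsingleton (P i))) →
      (∀ M : ModuleCat.{0} Rᵐᵒᵖ, ∃ (P : ℕ → ModuleCat.{0} Rᵐᵒᵖ)
          (d : ∀ i : ℕ, P (i + 1) ⟶ P i) (ε : P 0 ⟶ M),
          (∀ i, Module.Projective Rᵐᵒᵖ (P i)) ∧ Function.Surjective ε.hom ∧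
          LinearMap.range (d 0).hom = LinearMap.ker ε.hom ∧
          (∀ i, LinearMap.range (d (i + 1)).hom = LinearMap.ker (d i).hom) ∧
          (∀ i, 4 < i → Subsingleton (P i))) →
      IsDomain R := by
  intro R _ _ _ _ hL hR
  have : NoZeroDivisors R := ⟨fun h => Pool.Agent.Lib.MP_95d09c_al.eq_zero_or_eq_zero
    (Pool.Agent.Lib.MP_95d09c_al.gl_of_res hL) (Pool.Agent.Lib.MP_95d09c_al.gl_of_res hR) h⟩
  exact NoZeroDivisors.to_isDomain R

end Pool.Agent.Results.MP_95d09c_al.GlobalDimensionFour
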