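import Pool.Agent.Lib.MP_95d09c_al.K2.One

set_option autoImplicit false

open CategoryTheory

namespace Pool.Agent.Results.MP_95d09c_al.KrullOneIdeal

open Pool.Agent.Lib.MP_95d09c_al

/-- Let `R` be a (possibly noncommutative) local ring, left and right noetherian, of finite left
and right global dimension. If some nonzero left ideal of `R` has Krull dimension at most one (all but
finitely many factors of every descending chain are artinian), then `R` is a domain. -/
theorem result :
    ∀ (R : Type) [Ring R],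
      IsLocalRing R → IsNoetherianRing R → IsNoetherianRing Rᵐᵒᵖ →
      (∃ n : ℕ, ∀ M : ModuleCat.{0} R, ∃ (P : ℕ → ModuleCat.{0} R)
          (d : ∀ i : ℕ, P (i + 1) ⟶ P i) (ε : P 0 ⟶ M),
          (∀ i, Module.Projective R (P i)) ∧ Function.Surjective ε.hom ∧
          LinearMap.range (d 0).hom = LinearMap.ker ε.hom ∧
          (∀ i, LinearMap.range (d (i + 1)).hom = LinearMap.ker (d i).hom) ∧
          (∀ i, n < i → Subsingleton (P i))) →
      (∃ n : ℕ, ∀ M : ModuleCat.{0} Rᵐᵒᵖ, ∃ (P : ℕ → ModuleCat.{0} Rᵐᵒᵖ)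
          (d : ∀ i : ℕ, P (i + 1) ⟶ P i) (ε : P 0 ⟶ M),
          (∀ i, Module.Projective Rᵐᵒᵖ (P i)) ∧ Function.Surjective ε.hom ∧
          LinearMap.range (d 0).hom = LinearMap.ker ε.hom ∧
          (∀ i, LinearMap.range (d (i + 1)).hom = LinearMap.ker (d i).hom) ∧
          (∀ i, n < i → Subsingleton (P i))) →
      (∃ L : Ideal R, L ≠ ⊥ ∧ ∀ C : ℕ → Submodule R L, Antitone C → ∃ N : ℕ, ∀ i, N ≤ i →
        IsArtinian R (C i ⧸ (C (i + 1)).submoduleOf (C i))) → IsDomain R := by
  rintro R _ _ _ _ hL hR ⟨L, h0, hd⟩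
  have : NoZeroDivisors R := ⟨fun hab => K2One.core (K2.gdf_of_res' hL) (K2.gdf_of_res' hR) h0 hd hab⟩
  exact NoZeroDivisors.to_isDomain R

end Pool.Agent.Results.MP_95d09c_al.KrullOneIdeal
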